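import Pool.Agent.LUB.Stmts
import Pool.Agent.Helper65_Leo.Laurent

/-!
# Squad LUB, row OSA: the residue argument in the field of rational functions
-/

set_option autoImplicit false

open Polynomial
open Pool.Agent.Helper65_Leo

attribute [-instance] HahnSeries.powerSeriesAlgebra

namespace Pool.Agent.LUB.H97

theorem der_poly {k : Type} [Field k] (d₀ : Derivation k (RatFunc k) (RatFunc k))
    (hd : d₀ RatFunc.X = 1) (p : k[X]) :
    d₀ (algebraMap k[X] (RatFunc k) p) = algebraMap k[X] (RatFunc k) (derivative p) := by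
  induction p using Polynomial.induction_on' with
  | add p q hp hq => rw [map_add, map_add, hp, hq, map_add, map_add]
  | monomial n a =>
    rw [← C_mul_X_pow_eq_monomial, map_mul, map_pow, RatFunc.algebraMap_C, RatFunc.algebraMap_X,
      ← RatFunc.algebraMap_eq_C, ← Algebra.smul_def, Derivation.map_smul, Derivation.leibniz_pow,
      hd, derivative_C_mul_X_pow, map_mul, map_pow, RatFunc.algebraMap_C, RatFunc.algebraMap_X,
      ← RatFunc.algebraMap_eq_C, Algebra.smul_def, map_mul, map_natCast]
    simp only [smul_eq_mul, nsmul_eq_mul, mul_one]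
    ring

theorem euler_emb {k : Type} [Field k] (d₀ : Derivation k (RatFunc k) (RatFunc k))
    (hd : d₀ RatFunc.X = 1) (a : RatFunc k) :
    euler k (ratEmb 1 one_ne_zero a) = ratEmb 1 one_ne_zero (RatFunc.X * d₀ a) := by
  induction a using RatFunc.induction_on with
  | _ p q hq =>
    rw [map_div₀, Derivation.leibniz_div, Derivation.leibniz_div, der_poly d₀ hd, der_poly d₀ hd,
      ← RatFunc.algebraMap_X]
    simp only [smul_eq_mul, map_mul, map_pow, map_inv₀, map_sub]
    rw [ratEmb_algebraMap, ratEmb_algebraMap, ratEmb_algebraMap, ratEmb_algebraMap,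
      ratEmb_algebraMap, euler_polyEmb, euler_polyEmb, map_mul, map_mul]
    push_cast
    ring

theorem osa : OsaStmt := by
  intro k _ _ d₀ hd ι _ β hβ h g i₀ d hd0 hh hi₀ heq
  have h1 := congrArg (fun a => (ratEmb 1 one_ne_zero (RatFunc.X * a)).coeff 0) heq
  rw [← euler_emb d₀ hd g, coeff_euler, Int.cast_zero, zero_mul, Finset.mul_sum, map_sum] at h1
  have h2 : ∀ i, (ratEmb (k := k) 1 one_ne_zero (RatFunc.X * (algebraMap k (RatFunc k) (β i) *
      (d₀ (h i) / h i)))).coeff 0 = β i * ((ratEmb (k := k) 1 one_ne_zero (h i)).order : k) := by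
    intro i
    have h3 : RatFunc.X * (algebraMap k (RatFunc k) (β i) * (d₀ (h i) / h i)) =
        algebraMap k (RatFunc k) (β i) * ((RatFunc.X * d₀ (h i)) / h i) := by ring
    have hne : ratEmb (k := k) 1 one_ne_zero (h i) ≠ 0 := by
      rw [Ne, map_eq_zero]
      exact hh i
    rw [h3, map_mul, map_div₀, ← euler_emb d₀ hd, RatFunc.algebraMap_eq_C, ← RatFunc.algebraMap_C,
      ratEmb_algebraMap]
    have h4 : polyEmb (k := k) 1 (C (β i)) = HahnSeries.C (β i) := by
      unfold polyEmb
      rw [coe_eval₂RingHom, eval₂_C]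
    rw [h4, HahnSeries.C_mul_eq_smul, HahnSeries.coeff_smul, coeff_zero_euler_div _ hne,
      smul_eq_mul]
  have h5 : ∑ i, β i * ((ratEmb (k := k) 1 one_ne_zero (h i)).order : k) = 0 := by
    rw [← h1, HahnSeries.coeff_sum]
    exact Finset.sum_congr rfl fun i _ => (h2 i).symm
  have h6 : ∑ i, ((ratEmb (k := k) 1 one_ne_zero (h i)).order : ℚ) • β i = 0 := by
    rw [← h5]
    refine Finset.sum_congr rfl fun i _ => ?_
    rw [Int.cast_smul_eq_zsmul, zsmul_eq_mul, mul_comm]
  have h7 := Fintype.linearIndependent_iff.1 hβ _ h6 i₀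
  have h8 : (ratEmb (k := k) 1 one_ne_zero (h i₀)).order = d := by
    rw [hi₀, map_pow, ← RatFunc.algebraMap_X, ratEmb_algebraMap]
    have h9 : polyEmb (k := k) 1 X = HahnSeries.single 1 1 := by
      unfold polyEmb
      rw [coe_eval₂RingHom, eval₂_X]
    rw [h9, HahnSeries.single_pow, HahnSeries.order_single (by simp)]
    simp
  rw [h8] at h7
  exact hd0 (by exact_mod_cast h7)

end Pool.Agent.LUB.H97
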