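import Pool.Agent.LUB.Stmts

/-!
# Squad LUB, row RFL: the real functional
-/

set_option autoImplicit false

open Polynomial Filter Topology

namespace Pool.Agent.LUB.H97

theorem spr_map {S S' : Type} [CommRing S] [CommRing S'] (φ : S →+* S') (f : ℤ[X][X]) (T : S) :
    (spr f T).map φ = spr f (φ T) := by
  unfold spr
  rw [Polynomial.map_map]
  congr 1
  ext x
  · simp
  · simp

theorem eval_sub {Ω : Type} [Field Ω] (A : Subalgebra ℤ Ω) (f : ℤ[X][X]) (T θ : A) :
    (((spr f T).eval θ : A) : Ω) = (spr f (T : Ω)).eval (θ : Ω) := by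
  have h := spr_map (A.val.toRingHom) f T
  have h2 : (A.val.toRingHom) T = (T : Ω) := rfl
  rw [h2] at h
  rw [← h, eval_map]
  change A.val.toRingHom ((spr f T).eval θ) = _
  rw [← eval₂_at_apply]
  rfl

theorem integral_of {Ω : Type} [Field Ω] (T : Ω) (f : ℤ[X][X]) (n : ℕ) (θ : Fin n → Ω)
    (hf : spr f T = ∏ j, (X - C (θ j))) (j : Fin n) :
    IsIntegral (Algebra.adjoin ℤ {T}) (θ j) := by
  set A := Algebra.adjoin ℤ {T}
  let T' : A := ⟨T, Algebra.subset_adjoin (by simp)⟩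
  have h1 : (spr f T').map (algebraMap A Ω) = spr f T := spr_map _ f T'
  have hinj : Function.Injective (algebraMap A Ω) := Subtype.val_injective
  refine ⟨spr f T', ?_, ?_⟩
  · rw [hinj.monic_map_iff, h1, hf]
    exact monic_prod_of_monic _ _ fun i _ => monic_X_sub_C _
  · rw [← eval_map, h1, hf, eval_prod]
    exact Finset.prod_eq_zero (Finset.mem_univ j) (by simp)

theorem tendsto_abs_int : Tendsto (fun t : ℤ => |(t : ℝ)|) cofinite atTop := by
  rw [Int.cofinite_eq, tendsto_sup]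
  refine ⟨?_, ?_⟩
  · exact tendsto_abs_atBot_atTop.comp (tendsto_intCast_atBot_iff.2 tendsto_id)
  · exact tendsto_abs_atTop_atTop.comp tendsto_intCast_atTop_atTop

/-- a bounded function converges along an ultrafilter -/
theorem exists_lim (U : Ultrafilter ℤ) (F : ℤ → ℝ) (A : ℝ) (h : ∀ᶠ t : ℤ in (U : Filter ℤ), |F t| ≤ A) :
    ∃ x, Tendsto F U (𝓝 x) := by
  have h1 : Set.Icc (-A) A ∈ (U.map F : Filter ℝ) := by
    have : ∀ᶠ t : ℤ in (U : Filter ℤ), F t ∈ Set.Icc (-A) A := h.mono fun t ht => abs_le.1 ht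
    exact this
  obtain ⟨x, _, hx⟩ := isCompact_Icc.ultrafilter_le_nhds' (U.map F) h1
  exact ⟨x, hx⟩

/-- the embedding of the subring into the subalgebra -/
def inc {Ω : Type} [Field Ω] (A : Subalgebra ℤ Ω) : A.toSubring →+* A where
  toFun x := ⟨x.1, x.2⟩
  map_one' := rfl
  map_zero' := rfl
  map_mul' _ _ := rfl
  map_add' _ _ := rfl

theorem rflRow : RflStmt := by
  intro sph spf bnd kil Ω _ _ T hT r f u n θ hf hne hfull
  have hint := integral_of T f n θ hf
  set A := Algebra.adjoin ℤ ({T} ∪ Set.range θ) with hA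
  have hTm : T ∈ A := Algebra.subset_adjoin (by simp)
  have hθm : ∀ j, θ j ∈ A := fun j => Algebra.subset_adjoin (by simp)
  choose s hs using sph Ω T hT n θ hint
  let y : Fin r → Fin n → A := fun i j => (spr (u i) (⟨T, hTm⟩ : A)).eval ⟨θ j, hθm j⟩
  have hy : ∀ i j, (y i j : Ω) = (spr (u i) T).eval (θ j) := fun i j => eval_sub A (u i) _ _
  have hy0 : ∀ i j, y i j ≠ 0 := by
    intro i j h
    apply hne i j
    rw [← hy, h]
    rfl
  -- the specialization
  have hsp : ∀ (t : ℤ) (i : Fin r) (j : Fin n),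
      aeval (s t ⟨θ j, hθm j⟩) (sp (u i) t) = s t (y i j) := by
    intro t i j
    exact ((spf Ω T f n θ hf (s t) t (hs t)).2 (u i) j (y i j) (hy i j)).symm
  have hroot : ∀ (t : ℤ) (z : ℂ), aeval z (sp f t) = 0 → ∃ j, z = s t ⟨θ j, hθm j⟩ := by
    intro t z hz
    have h1 := (spf Ω T f n θ hf (s t) t (hs t)).1
    have h2 : aeval z (sp f t) = ((sp f t).map (Int.castRingHom ℂ)).eval z := by
      rw [eval_map, aeval_def]
      rfl
    rw [h2, h1, eval_prod, Finset.prod_eq_zero_iff] at hz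
    obtain ⟨j, _, hj⟩ := hz
    refine ⟨j, ?_⟩
    simpa [sub_eq_zero] using hj
  obtain ⟨c, hc, hE⟩ := hfull
  set E : Set ℤ := {t : ℤ | ∃ z : Fin r → ℂ, (∀ j, aeval (z j) (sp f t) = 0) ∧
    c * Real.log |(t : ℝ)| ^ r ≤
      |(Matrix.of fun i j => Real.log ‖aeval (z j) (sp (u i) t)‖).det|} with hEdef
  have hQ : ∀ t ∈ E, ∃ π : Fin r → Fin n, c * Real.log |(t : ℝ)| ^ r ≤
      |(Matrix.of fun i j => Real.log ‖s t (y i (π j))‖).det| := by
    rintro t ⟨z, hz, hle⟩
    choose π hπ using fun j => hroot t (z j) (hz j)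
    refine ⟨π, ?_⟩
    have h1 : (Matrix.of fun i j => Real.log ‖s t (y i (π j))‖) =
        (Matrix.of fun i j => Real.log ‖aeval (z j) (sp (u i) t)‖) := by
      ext i j
      simp only [Matrix.of_apply]
      rw [hπ j, hsp]
    rw [h1]
    exact hle
  -- the ultrafilter
  have : NeBot (cofinite ⊓ 𝓟 E) := cofinite_inf_principal_neBot_iff.2 hE
  let U : Ultrafilter ℤ := Ultrafilter.of (cofinite ⊓ 𝓟 E)
  have hU : (U : Filter ℤ) ≤ cofinite ⊓ 𝓟 E := Ultrafilter.of_le _
  have hUE : ∀ᶠ t : ℤ in (U : Filter ℤ), t ∈ E := by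
    have h1 : (U : Filter ℤ) ≤ 𝓟 E := le_trans hU inf_le_right
    exact h1 (mem_principal_self E)
  have hUabs : Tendsto (fun t : ℤ => |(t : ℝ)|) U atTop :=
    tendsto_abs_int.mono_left (le_trans hU inf_le_left)
  have hUlog : Tendsto (fun t : ℤ => Real.log |(t : ℝ)|) U atTop := Real.tendsto_log_atTop.comp hUabs
  have hUpos : ∀ᶠ t : ℤ in (U : Filter ℤ), 0 < Real.log |(t : ℝ)| := hUlog.eventually_gt_atTop 0
  obtain ⟨π, hπ⟩ : ∃ π : Fin r → Fin n, ∀ᶠ t : ℤ in (U : Filter ℤ), c * Real.log |(t : ℝ)| ^ r ≤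
      |(Matrix.of fun i j => Real.log ‖s t (y i (π j))‖).det| := by
    have h1 : (⋃ π ∈ (Set.univ : Set (Fin r → Fin n)), {t : ℤ | c * Real.log |(t : ℝ)| ^ r ≤
        |(Matrix.of fun i j => Real.log ‖s t (y i (π j))‖).det|}) ∈ U := by
      refine Filter.mem_of_superset hUE ?_
      intro t ht
      obtain ⟨π, hπ⟩ := hQ t ht
      exact Set.mem_biUnion (Set.mem_univ π) hπ
    obtain ⟨π, _, hπ⟩ := (Ultrafilter.finite_biUnion_mem_iff Set.finite_univ).1 h1
    exact ⟨π, hπ⟩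
  -- bounds
  have hbd : ∀ i j, ∃ B : ℝ, ∀ᶠ t : ℤ in (U : Filter ℤ), s t (y i j) ≠ 0 ∧
      |(Real.log ‖s t (y i j)‖ / Real.log |(t : ℝ)|)| ≤ B := by
    intro i j
    obtain ⟨B, t₀, hB⟩ := bnd Ω T hT n θ hint (y i j) (hy0 i j)
    refine ⟨B, ?_⟩
    filter_upwards [hUpos, hUabs.eventually_ge_atTop (t₀ : ℝ)] with t h1 h2
    obtain ⟨h3, h4⟩ := hB t h2 (s t) (hs t)
    refine ⟨h3, ?_⟩
    rw [abs_div, abs_of_pos h1, div_le_iff₀ h1]
    exact h4
  have hlim : ∀ i j, ∃ x, Tendsto (fun t : ℤ => Real.log ‖s t (y i j)‖ / Real.log |(t : ℝ)|) U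
      (𝓝 x) := by
    intro i j
    obtain ⟨B, hB⟩ := hbd i j
    exact exists_lim U _ B (hB.mono fun t ht => ht.2)
  choose lam hlam using hlim
  refine ⟨π, lam, ?_, ?_⟩
  · have h1 : Tendsto (fun t : ℤ => |(Matrix.of fun i j =>
        Real.log ‖s t (y i (π j))‖ / Real.log |(t : ℝ)|).det|) U
        (𝓝 |(Matrix.of fun i j => lam i (π j)).det|) := by
      have h2 : Tendsto (fun t : ℤ => (Matrix.of fun i j =>
          Real.log ‖s t (y i (π j))‖ / Real.log |(t : ℝ)| : Matrix (Fin r) (Fin r) ℝ)) U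
          (𝓝 (Matrix.of fun i j => lam i (π j))) := by
        refine tendsto_pi_nhds.2 fun i => tendsto_pi_nhds.2 fun j => ?_
        exact hlam i (π j)
      have h3 : Continuous (fun M : Matrix (Fin r) (Fin r) ℝ => |M.det|) :=
        continuous_abs.comp continuous_id.matrix_det
      exact (h3.tendsto _).comp h2
    have h4 : c ≤ |(Matrix.of fun i j => lam i (π j)).det| := by
      refine ge_of_tendsto h1 ?_
      filter_upwards [hπ, hUpos] with t h5 h6
      have h7 : (Matrix.of fun i j => Real.log ‖s t (y i (π j))‖ / Real.log |(t : ℝ)| :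
          Matrix (Fin r) (Fin r) ℝ) = (Real.log |(t : ℝ)|)⁻¹ •
          (Matrix.of fun i j => Real.log ‖s t (y i (π j))‖) := by
        ext i j
        simp only [Matrix.of_apply, Matrix.smul_apply, smul_eq_mul]
        rw [div_eq_inv_mul]
      rw [h7, Matrix.det_smul, Fintype.card_fin, abs_mul, abs_of_pos (by positivity), inv_pow,
        ← div_eq_inv_mul, le_div_iff₀ (by positivity)]
      exact h5
    intro h0
    rw [h0, abs_zero] at h4
    linarith
  · intro m hm
    obtain ⟨B, hB⟩ := kil Ω A.toSubring (Fin r × Fin n)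
      (fun q => ⟨(y q.1 q.2 : Ω), (y q.1 q.2).2⟩) (fun q => m q.1 q.2)
      (fun q => by
        change ((y q.1 q.2 : A) : Ω) ≠ 0
        rw [hy]
        exact hne _ _)
      (by
        rw [Fintype.prod_prod_type]
        simp only [hy]
        exact hm)
    have h1 : ∀ᶠ t : ℤ in (U : Filter ℤ), ∀ q : Fin r × Fin n, s t (y q.1 q.2) ≠ 0 := by
      rw [eventually_all]
      intro q
      obtain ⟨B', hB'⟩ := hbd q.1 q.2
      exact hB'.mono fun t ht => ht.1
    have h2 : Tendsto (fun t : ℤ => ∑ i, ∑ j, (m i j : ℝ) *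
        (Real.log ‖s t (y i j)‖ / Real.log |(t : ℝ)|)) U (𝓝 (∑ i, ∑ j, (m i j : ℝ) * lam i j)) :=
      tendsto_finset_sum _ fun i _ => tendsto_finset_sum _ fun j _ =>
        Tendsto.const_mul _ (hlam i j)
    have h3 : Tendsto (fun t : ℤ => ∑ i, ∑ j, (m i j : ℝ) *
        (Real.log ‖s t (y i j)‖ / Real.log |(t : ℝ)|)) U (𝓝 0) := by
      have h4 : Tendsto (fun t : ℤ => B / Real.log |(t : ℝ)|) U (𝓝 0) :=
        Tendsto.const_div_atTop hUlog B
      refine squeeze_zero_norm' ?_ h4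
      filter_upwards [h1, hUpos] with t h5 h6
      have h7 := hB ((s t).comp (inc A)) (fun q => h5 q)
      rw [Fintype.sum_prod_type] at h7
      have h8 : ∑ i, ∑ j, (m i j : ℝ) * (Real.log ‖s t (y i j)‖ / Real.log |(t : ℝ)|) =
          (∑ i, ∑ j, (m i j : ℝ) * Real.log ‖s t (y i j)‖) / Real.log |(t : ℝ)| := by
        rw [Finset.sum_div]
        refine Finset.sum_congr rfl fun i _ => ?_
        rw [Finset.sum_div]
        refine Finset.sum_congr rfl fun j _ => ?_
        ring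
      rw [h8, Real.norm_eq_abs, abs_div, abs_of_pos h6]
      exact div_le_div_of_nonneg_right h7 h6.le
    exact tendsto_nhds_unique h2 h3

end Pool.Agent.LUB.H97
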